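import Pool.Agent.H586R3.BaireSub

set_option autoImplicit false

/-! Families of dense Baire subspaces which avoid countably many subspaces (after `Pool.Agent.H586R3.BaireSub`). -/

open Cardinal Set TopologicalSpace Topology

namespace Pool.Agent.Y958.BF
open Pool.Agent.H586R3

variable {F : Type} [AddCommGroup F] [Module ℂ F]

/-- transfinite choice of vectors, with linear independence -/
theorem exists_family' {I : Type} (hI : #I ≤ 𝔠) {Z : Type} [Nonempty Z] (Y : Z → Submodule ℂ F)
    (T : I → Set F)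
    (hT : ∀ i, ∀ A : Set F, #A < 𝔠 → ∃ x ∈ T i, ∀ ζ, x ∉ Y ζ ⊔ Submodule.span ℂ A) :
    ∃ g : I → F, (∀ i, g i ∈ T i) ∧ LinearIndependent ℂ g ∧
      ∀ ζ, ∀ e ∈ Submodule.span ℂ (range g), e ∈ Y ζ → e = 0 := by
  classical
  obtain ⟨r, wo, hr⟩ := Cardinal.exists_ord_eq I
  let _ : LinearOrder I := linearOrderOfSTO r
  have hwf : WellFounded r := wo.wf
  have hseg : ∀ i : I, #{j : I // r j i} < #I := by
    intro i
    have := Ordinal.typein_lt_type r i
    rw [← hr, Cardinal.lt_ord] at this
    exact this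
  set pick : I → Set F → F := fun i A => if h : #A < 𝔠 then Classical.choose (hT i A h) else 0
    with hpick
  set g : I → F := hwf.fix (fun i ih => pick i (range (fun j : {j // r j i} => ih j.1 j.2)))
    with hg
  have hgi : ∀ i, g i = pick i (range (fun j : {j // r j i} => g j.1)) := by
    intro i
    rw [hg, WellFounded.fix_eq]
  have hcard : ∀ i, #(range (fun j : {j // r j i} => g j.1)) < 𝔠 := by
    intro i
    exact (Cardinal.mk_range_le).trans_lt ((hseg i).trans_le hI)
  have hspec : ∀ i, g i ∈ T i ∧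
      ∀ ζ, g i ∉ Y ζ ⊔ Submodule.span ℂ (range (fun j : {j // r j i} => g j.1)) := by
    intro i
    have h := Classical.choose_spec (hT i _ (hcard i))
    rw [hgi i]
    simp only [hpick, dif_pos (hcard i)]
    exact h
  -- the key property
  have key : ∀ (ζ : Z) (c : I →₀ ℂ), (c.sum fun i a => a • g i) ∈ Y ζ → c = 0 := by
    intro ζ c hc
    by_contra hne
    have hsupp : c.support.Nonempty := Finsupp.support_nonempty_iff.2 hne
    set i := c.support.max' hsupp with hi
    have hmem : i ∈ c.support := Finset.max'_mem _ _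
    apply (hspec i).2 ζ
    have hci : c i ≠ 0 := Finsupp.mem_support_iff.1 hmem
    have hsplit : c i • g i = (c.sum fun i a => a • g i) - ∑ j ∈ c.support.erase i, c j • g j := by
      rw [Finsupp.sum, ← Finset.add_sum_erase _ _ hmem]
      abel
    have h2 : g i = (c i)⁻¹ • ((c.sum fun i a => a • g i) - ∑ j ∈ c.support.erase i, c j • g j) := by
      rw [← hsplit, smul_smul, inv_mul_cancel₀ hci, one_smul]
    rw [h2]
    apply Submodule.smul_mem
    apply Submodule.sub_mem
    · exact Submodule.mem_sup_left hc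
    · apply Submodule.mem_sup_right
      apply Submodule.sum_mem
      intro j hj
      apply Submodule.smul_mem
      apply Submodule.subset_span
      have hjlt : j < i := Finset.lt_max'_of_mem_erase_max' _ _ hj
      exact ⟨⟨j, hjlt⟩, rfl⟩
  refine ⟨g, fun i => (hspec i).1, ?_, fun ζ e he heY => ?_⟩
  · rw [linearIndependent_iff]
    intro c hc
    obtain ⟨ζ⟩ := ‹Nonempty Z›
    apply key ζ c
    have h1 : (c.sum fun i a => a • g i) = 0 := hc
    rw [h1]
    exact Submodule.zero_mem _
  · obtain ⟨c, hc⟩ := (Finsupp.mem_span_range_iff_exists_finsupp).1 he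
    have h1 := key ζ c (by rw [hc]; exact heY)
    rw [← hc, h1, Finsupp.sum_zero_index]

variable [TopologicalSpace F]

/-- a subspace which meets all dense `G_δ` sets densely is a Baire space -/
theorem baire_of_meet (V : Submodule ℂ F) (hmeet : ∀ D : Set F, IsGδ D → Dense D → Dense ((V : Set F) ∩ D)) [BaireSpace F] :
    Dense (V : Set F) ∧ BaireSpace V := by
  have hEd : Dense (V : Set F) := by
    have := hmeet univ IsGδ.univ dense_univ
    rwa [inter_univ] at this
  refine ⟨hEd, ⟨?_⟩⟩
  intro f hfo hfd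
  choose W hWo hWf using fun n => isOpen_induced_iff.1 (hfo n)
  have hWd : ∀ n, Dense (W n) := by
    intro n
    have h1 : Dense ((↑) '' (f n) : Set F) := hEd.denseRange_val.dense_image continuous_subtype_val (hfd n)
    refine h1.mono ?_
    rintro _ ⟨x, hx, rfl⟩
    rw [← hWf n] at hx
    exact hx
  have hG : IsGδ (⋂ n, W n) := IsGδ.iInter_of_isOpen hWo
  have hGd : Dense (⋂ n, W n) := dense_iInter_of_isOpen_nat hWo hWd
  have h2 := hmeet _ hG hGd
  have h3 : (⋂ n, f n) = (↑) ⁻¹' (⋂ n, W n) := by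
    rw [preimage_iInter]
    exact iInter_congr fun n => (hWf n).symm
  rw [h3]
  rw [Topology.IsInducing.subtypeVal.dense_iff]
  intro x
  refine closure_mono ?_ (h2 x.1)
  rintro y ⟨hyE, hyW⟩
  exact ⟨⟨y, hyE⟩, hyW, rfl⟩

/-- The abstract construction of an independent family of dense Baire subspaces, spanned by elements of a given residual set,
whose sum avoids countably many subspaces. -/
theorem exists_baire_family [BaireSpace F] [SecondCountableTopology F]
    (m : ℝ → F → F) (hm : ∀ t, Continuous (m t)) (hmt : ∀ f, Continuous fun t => m t f)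
    (m0 : ∀ f, m 0 f = f) (madd : ∀ s t f, m s (m t f) = m (s + t) f)
    {Z : Type} [Countable Z] [Nonempty Z] (Y : Z → Submodule ℂ F)
    (hY : ∀ ζ, IsMeagre (Y ζ : Set F))
    (hind : ∀ ζ, ∀ f ∉ Y ζ, LinearIndependent ℂ (fun t : ℝ => (Y ζ).mkQ (m t f)))
    (R : Set F) (hR : R ∈ residual F) :
    ∃ B : ℝ → Set F, (∀ t, B t ⊆ R) ∧ iSupIndep (fun t => Submodule.span ℂ (B t)) ∧
      (∀ V : Submodule ℂ F, (∃ t, B t ⊆ V) → Dense (V : Set F) ∧ BaireSpace V) ∧
      (∀ ζ, ∀ e ∈ Submodule.span ℂ (⋃ t, B t), e ∈ Y ζ → e = 0) := by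
  classical
  set I : Type := ({D : Set F // IsGδ D ∧ Dense D} × {U : Set F // U ∈ countableBasis F}) × ℝ with hI
  have hIcard : #I ≤ 𝔠 := by
    rw [hI, Cardinal.mk_prod, Cardinal.lift_id, Cardinal.lift_id, Cardinal.mk_prod, Cardinal.lift_id, Cardinal.lift_id, Cardinal.mk_real]
    calc #{D : Set F // IsGδ D ∧ Dense D} * #{U : Set F // U ∈ countableBasis F} * 𝔠
        ≤ 𝔠 * ℵ₀ * 𝔠 := by
          gcongr
          · refine le_trans ?_ (card_gdelta_le (F := F))
            exact Cardinal.mk_le_mk_of_subset (fun D hD => hD.1)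
          · exact Cardinal.le_aleph0_iff_set_countable.2 (countable_countableBasis F)
      _ = 𝔠 := by simp
  obtain ⟨g, hgT, hgli, hgE⟩ := exists_family' hIcard Y (fun i : I => i.1.2.1 ∩ (i.1.1.1 ∩ R)) (by
    rintro ⟨⟨⟨D, hDG, hDd⟩, ⟨U, hU⟩⟩, t⟩ A hA
    have hUo : IsOpen U := isOpen_of_mem_countableBasis hU
    have hUne : U.Nonempty := nonempty_of_mem_countableBasis hU
    obtain ⟨S, hSsub, hScard, hSli⟩ := exists_large_independent m hm hmt m0 madd Y hY hind (D ∩ R) U
      (Filter.inter_mem (residual_of_dense_Gδ hDG hDd) hR) hUo hUne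
    obtain ⟨x, hxS, hx⟩ := exists_avoid Y S hScard hSli A hA
    exact ⟨x, hSsub hxS, hx⟩)
  refine ⟨fun t => g '' {i | i.2 = t}, ?_, ?_, ?_, ?_⟩
  · rintro t _ ⟨i, _, rfl⟩
    exact (hgT i).2.2
  · intro t
    have h1 : Disjoint (Submodule.span ℂ (g '' {i | i.2 = t})) (Submodule.span ℂ (g '' {i | i.2 ≠ t})) :=
      hgli.disjoint_span_image (by
        rw [Set.disjoint_left]
        intro i h1 h2
        exact h2 h1)
    refine h1.mono_right ?_
    apply iSup_le
    intro s
    apply iSup_le
    intro hst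
    apply Submodule.span_mono
    apply image_mono
    intro i hi
    show i.2 ≠ t
    rw [show i.2 = s from hi]
    exact hst
  · rintro V ⟨t, ht⟩
    apply baire_of_meet
    intro D hDG hDd
    rw [(isBasis_countableBasis F).dense_iff]
    intro U hU hUne
    have := hgT ⟨⟨⟨D, hDG, hDd⟩, ⟨U, hU⟩⟩, t⟩
    exact ⟨_, this.1, ht ⟨_, rfl, rfl⟩, this.2.1⟩
  · intro ζ e he
    apply hgE ζ e
    refine Submodule.span_mono ?_ he
    apply iUnion_subset
    intro t
    exact image_subset_range _ _

end Pool.Agent.Y958.BF
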